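import Pool.Agent.helper24.CG.Spec

/-!
# Row cg:BIR (MP_ba8873_co): births
-/

set_option autoImplicit false

namespace Pool.Agent.helper24.CG

open Finset

theorem fam_eq34 (N q : ℕ) (Bk : ES N) (B X : Finset (Fin N)) :
    (fam N q Bk B ∅).filter (fun F => Disjoint X F) = fam N q Bk B X := by
  ext F
  unfold fam
  simp only [mem_filter, mem_univ, true_and]
  constructor
  · rintro ⟨⟨h1, h2, -, h4⟩, h5⟩
    exact ⟨h1, h2, h5, h4⟩
  · rintro ⟨h1, h2, h3, h4⟩
    exact ⟨⟨h1, h2, disjoint_empty_left F, h4⟩, h3⟩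

theorem fam_eq34' (N q : ℕ) (Bk : ES N) (B X : Finset (Fin N)) (v : Fin N) :
    (fam N q Bk B ∅).filter (fun F => Disjoint X F ∧ v ∈ F) =
      (fam N q Bk B X).filter (fun F => v ∈ F) := by
  rw [← fam_eq34 N q Bk B X, filter_filter]

theorem LL_pos34 (N m q J n0 : ℕ) : 1 ≤ LL N m q J n0 := by
  unfold LL
  apply Nat.succ_le_of_lt
  positivity

theorem DD_pos34 (N q p : ℕ) (c L : ℝ) (β : ℕ) (hN : 1 ≤ N) (hc : 1 ≤ c) (hL : 1 ≤ L) :
    0 < DD N q p c L β := by
  unfold DD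
  have hN' : (0 : ℝ) < (N : ℝ) := by exact_mod_cast hN
  have h1 : (0 : ℝ) < (N : ℝ) ^ (((q - β : ℕ) : ℝ) + (β : ℝ) / (p : ℝ)) :=
    Real.rpow_pos_of_pos hN' _
  have h2 : (0 : ℝ) < (q : ℝ) + 1 := by positivity
  have h3 : (0 : ℝ) < c := by linarith
  have h4 : (0 : ℝ) < L := by linarith
  positivity

theorem BIR (h1 : HVY_stmt) (h2 : NUB_stmt) (h3 : SUN_stmt) (h4 : RCH_stmt) (_h5 : MUL_stmt) :
    BIR_stmt := by
  intro N m b q p J n0 c H Bk Ψ hN hm hq hp hJ hc hn0 hH hΨ hΨc hΨ0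
  have hp' : (1 : ℝ) ≤ (p : ℝ) := by exact_mod_cast hp
  have hm' : (1 : ℝ) ≤ (m : ℝ) := by exact_mod_cast hm
  have hq' : (1 : ℝ) ≤ (q : ℝ) := by exact_mod_cast hq
  have hN' : (1 : ℝ) ≤ (N : ℝ) := by exact_mod_cast hN
  have hden : (1 : ℝ) ≤ 2 * (p : ℝ) ^ 2 * m * (q : ℝ) ^ 2 := by
    have a1 : (1 : ℝ) ≤ (p : ℝ) ^ 2 := one_le_pow₀ hp'
    have a2 : (1 : ℝ) ≤ (q : ℝ) ^ 2 := one_le_pow₀ hq'
    have a3 : (1 : ℝ) ≤ 2 * (p : ℝ) ^ 2 := by linarith
    have a4 : (1 : ℝ) ≤ 2 * (p : ℝ) ^ 2 * m := by nlinarith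
    nlinarith
  have hτ0 : 0 < (2 * (p : ℝ) ^ 2 * m * (q : ℝ) ^ 2)⁻¹ := by positivity
  have hτ1 : (2 * (p : ℝ) ^ 2 * m * (q : ℝ) ^ 2)⁻¹ ≤ 1 := inv_le_one_of_one_le₀ hden
  -- the removed sets
  have hX : ∀ B : Finset (Fin N), ∃ X : Finset (Fin N), X.card ≤ n0 ∧ (B.card ≤ q →
      ∀ v, ∑ F ∈ (fam N q Bk B X).filter (fun F => v ∈ F), nu b m H B F ≤
        (2 * (p : ℝ) ^ 2 * m * (q : ℝ) ^ 2)⁻¹ * ∑ F ∈ fam N q Bk B X, nu b m H B F) := by
    intro B
    by_cases hB : B.card ≤ q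
    · obtain ⟨k1, k2⟩ := h2 N m b q H Bk B hN hm hB hH
      obtain ⟨X, hX1, hX2⟩ := h1 N n0 (fam N q Bk B ∅) (nu b m H B) _ _ hτ0 hτ1
        (fun F _ => k1 F) k2 hn0
      refine ⟨X, hX1, fun _ v => ?_⟩
      have := hX2 v
      rw [fam_eq34, fam_eq34'] at this
      exact this
    · exact ⟨∅, by simp, fun h => absurd h hB⟩
  choose X hXn hXv using hX
  obtain ⟨𝓑, hB1, hB2⟩ := h4 N m q J n0 H X hJ hH hXn
  have hL1 : (1 : ℝ) ≤ (LL N m q J n0 : ℝ) := by exact_mod_cast LL_pos34 N m q J n0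
  have hDD : ∀ β : ℕ, 0 < DD N q p c (LL N m q J n0) β := fun β =>
    DD_pos34 N q p c _ β hN hc hL1
  have hnu : ∀ B F : Finset (Fin N), B.card ≤ q → 0 ≤ nu b m H B F := by
    intro B F hB
    have := (h2 N m b q H Bk B hN hm hB hH).1 F
    linarith
  refine ⟨fun S => ∑ B ∈ 𝓑.filter (fun B => B.card ≤ q), ∑ F ∈ fam N q Bk B (X B),
    (if ed (B ∪ F) = S then nu b m H B F / DD N q p c (LL N m q J n0) B.card else 0), ?_, ?_, ?_⟩
  · intro S
    apply sum_nonneg
    intro B hB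
    apply sum_nonneg
    intro F _
    split_ifs
    · exact div_nonneg (hnu B F (mem_filter.1 hB).2) (hDD _).le
    · exact le_rfl
  · rw [sum_comm]
    have hN2 : (0 : ℝ) < (N : ℝ) ^ 2 := by positivity
    have hone : ∀ B ∈ 𝓑.filter (fun B => B.card ≤ q),
        ∑ S : ES N, ∑ F ∈ fam N q Bk B (X B),
          (if ed (B ∪ F) = S then nu b m H B F / DD N q p c (LL N m q J n0) B.card else 0) ≤
          ((LL N m q J n0 : ℝ) * (N : ℝ) ^ 2)⁻¹ := by
      intro B hB
      have hBq := (mem_filter.1 hB).2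
      rw [sum_comm]
      have e1 : ∀ F ∈ fam N q Bk B (X B), ∑ S : ES N,
          (if ed (B ∪ F) = S then nu b m H B F / DD N q p c (LL N m q J n0) B.card else 0) =
          nu b m H B F / DD N q p c (LL N m q J n0) B.card := by
        intro F _
        rw [sum_ite_eq]
        simp
      rw [sum_congr rfl e1, ← sum_div, div_le_iff₀ (hDD _)]
      have e2 := h3 N m b q p H Bk Ψ c B (X B) hN hm hp hq hc hBq hH hΨ hΨc hΨ0 (hXv B hBq)
      refine le_trans e2 (le_of_eq ?_)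
      unfold DD
      have e3 : (LL N m q J n0 : ℝ) ≠ 0 := by linarith
      have e4 : (N : ℝ) ≠ 0 := by linarith
      field_simp
    calc ∑ B ∈ 𝓑.filter (fun B => B.card ≤ q), ∑ S : ES N, ∑ F ∈ fam N q Bk B (X B),
          (if ed (B ∪ F) = S then nu b m H B F / DD N q p c (LL N m q J n0) B.card else 0)
        ≤ ∑ _B ∈ 𝓑.filter (fun B => B.card ≤ q), ((LL N m q J n0 : ℝ) * (N : ℝ) ^ 2)⁻¹ :=
          sum_le_sum hone
      _ = ((𝓑.filter (fun B => B.card ≤ q)).card : ℝ) *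
            ((LL N m q J n0 : ℝ) * (N : ℝ) ^ 2)⁻¹ := by
          rw [sum_const, nsmul_eq_mul]
      _ ≤ (LL N m q J n0 : ℝ) * ((LL N m q J n0 : ℝ) * (N : ℝ) ^ 2)⁻¹ := by
          apply mul_le_mul_of_nonneg_right
          · exact_mod_cast (card_filter_le _ _).trans hB1
          · positivity
      _ = ((N : ℝ) ^ 2)⁻¹ := by
          have e3 : (LL N m q J n0 : ℝ) ≠ 0 := by linarith
          rw [mul_inv, ← mul_assoc, mul_inv_cancel₀ e3, one_mul]
  · intro K hK hKB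
    obtain ⟨B, hBB, hBK, hcl, hdis⟩ := hB2 K hK
    have hBq : B.card ≤ q := by
      rw [← hK]
      exact card_le_card hBK
    have hBF : B ∪ (K \ B) = K := union_sdiff_of_subset hBK
    refine ⟨B, hBK, hcl, ?_⟩
    have hF : K \ B ∈ fam N q Bk B (X B) := by
      unfold fam
      rw [mem_filter]
      refine ⟨mem_univ _, ?_, disjoint_sdiff, hdis, ?_⟩
      · rw [card_sdiff_of_subset hBK, hK]
      · rw [hBF]
        apply disjoint_of_subset_left _ hKB
        unfold rest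
        exact sdiff_subset
    have hB' : B ∈ 𝓑.filter (fun B => B.card ≤ q) := mem_filter.2 ⟨hBB, hBq⟩
    have s1 : (if ed (B ∪ (K \ B)) = ed K then
        nu b m H B (K \ B) / DD N q p c (LL N m q J n0) B.card else 0) ≤
        ∑ F ∈ fam N q Bk B (X B),
          (if ed (B ∪ F) = ed K then nu b m H B F / DD N q p c (LL N m q J n0) B.card else 0) := by
      apply single_le_sum (f := fun F => (if ed (B ∪ F) = ed K then
        nu b m H B F / DD N q p c (LL N m q J n0) B.card else 0)) _ hF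
      intro F _
      show 0 ≤ (if ed (B ∪ F) = ed K then
        nu b m H B F / DD N q p c (LL N m q J n0) B.card else 0)
      split_ifs
      · exact div_nonneg (hnu B F hBq) (hDD _).le
      · exact le_rfl
    have s2 : ∑ F ∈ fam N q Bk B (X B),
          (if ed (B ∪ F) = ed K then nu b m H B F / DD N q p c (LL N m q J n0) B.card else 0) ≤
        ∑ B ∈ 𝓑.filter (fun B => B.card ≤ q), ∑ F ∈ fam N q Bk B (X B),
          (if ed (B ∪ F) = ed K then
            nu b m H B F / DD N q p c (LL N m q J n0) B.card else 0) := by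
      apply single_le_sum (f := fun B => ∑ F ∈ fam N q Bk B (X B),
          (if ed (B ∪ F) = ed K then
            nu b m H B F / DD N q p c (LL N m q J n0) B.card else 0)) _ hB'
      intro B₁ hB₁
      apply sum_nonneg
      intro F _
      split_ifs
      · exact div_nonneg (hnu B₁ F (mem_filter.1 hB₁).2) (hDD _).le
      · exact le_rfl
    rw [if_pos (by rw [hBF])] at s1
    have s3 : nu b m H B (K \ B) = gain b m (rest K B) H := by
      unfold nu
      rw [hBF]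
    rw [s3] at s1
    exact s1.trans s2

end Pool.Agent.helper24.CG
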