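import Pool.Agent.helper48.CG.Spec

set_option autoImplicit false

namespace Pool.Agent.helper48.CG

open Equiv Finset Function Pool.Agent.helper48.PP

theorem INS_card (q d : ℕ) : Fintype.card (Fin q ⊕ Fin d) = q + d := by simp

/-- the injectivity of the construction -/
theorem INS_core (h1 : IN1_stmt) {b q d : ℕ} (y : Perm (Fin (b + 1))) (v w : Perm (Fin q))
    (a a' : Fin d → Fin (q + 1)) (ha : StrictMono a) (ha' : StrictMono a')
    (hstd : std (INS_card q d) (ipk a) (ivk y v a) (h1 y v a ha).1 (h1 y v a ha).2 =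
      std (INS_card q d) (ipk a') (ivk y w a') (h1 y w a' ha').1 (h1 y w a' ha').2)
    (hB : (Finset.univ.image fun i : Fin d =>
        rk (INS_card q d) (ivk y v a) (h1 y v a ha).2 (Sum.inr i)) =
      (Finset.univ.image fun i : Fin d =>
        rk (INS_card q d) (ivk y w a') (h1 y w a' ha').2 (Sum.inr i))) :
    v = w ∧ a = a' := by
  have hP := rk_lt (INS_card q d) (ipk a) (h1 y v a ha).1
  have hV := rk_lt (INS_card q d) (ivk y v a) (h1 y v a ha).2
  have hP' := rk_lt (INS_card q d) (ipk a') (h1 y w a' ha').1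
  have hV' := rk_lt (INS_card q d) (ivk y w a') (h1 y w a' ha').2
  have hs := std_apply (INS_card q d) (ipk a) (ivk y v a) (h1 y v a ha).1 (h1 y v a ha).2
  have hs' := std_apply (INS_card q d) (ipk a') (ivk y w a') (h1 y w a' ha').1 (h1 y w a' ha').2
  rw [← hstd] at hs'
  generalize rk (INS_card q d) (ipk a) (h1 y v a ha).1 = P at hP hs
  generalize rk (INS_card q d) (ivk y v a) (h1 y v a ha).2 = V at hV hs hB
  generalize rk (INS_card q d) (ipk a') (h1 y w a' ha').1 = P' at hP' hs'
  generalize rk (INS_card q d) (ivk y w a') (h1 y w a' ha').2 = V' at hV' hs' hB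
  generalize std (INS_card q d) (ipk a) (ivk y v a) (h1 y v a ha).1 (h1 y v a ha).2 = W at hs hs'
  set φ : Fin q ⊕ Fin d → Fin q ⊕ Fin d := fun z => P'.symm (P z) with hφ
  have hφP : ∀ z, P' (φ z) = P z := by
    intro z
    simp only [hφ, Equiv.apply_symm_apply]
  have hφV : ∀ z, V' (φ z) = V z := by
    intro z
    rw [← hs' (φ z), hφP, hs]
  -- new elements go to new elements
  have hr : ∀ i : Fin d, ∃ j : Fin d, φ (Sum.inr i) = Sum.inr j := by
    intro i
    have h3 : V (Sum.inr i) ∈ (Finset.univ.image fun i : Fin d => V (Sum.inr i)) :=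
      mem_image_of_mem (fun i : Fin d => V (Sum.inr i)) (mem_univ i)
    rw [hB, mem_image] at h3
    obtain ⟨j, _, hj⟩ := h3
    refine ⟨j, ?_⟩
    apply V'.injective
    rw [hφV, hj]
  have hl : ∀ u : Fin q, ∃ t : Fin q, φ (Sum.inl u) = Sum.inl t := by
    intro u
    rcases hz : φ (Sum.inl u) with t | j
    · exact ⟨t, rfl⟩
    · exfalso
      have h3 : V' (Sum.inr j) ∈ (Finset.univ.image fun i : Fin d => V' (Sum.inr i)) :=
        mem_image_of_mem (fun i : Fin d => V' (Sum.inr i)) (mem_univ j)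
      rw [← hB, mem_image] at h3
      obtain ⟨i, _, hi⟩ := h3
      rw [← hz, hφV] at hi
      have h4 := V.injective hi
      cases h4
  choose ρ hρ using hr
  choose lam hlam using hl
  have hρm : StrictMono ρ := by
    intro i j hij
    have h3 : ipk a (Sum.inr i) < ipk a (Sum.inr j) := by
      have h4 := ha hij
      rw [Fin.lt_def] at h4
      simp only [ipk]
      omega
    rw [← hP, ← hφP, ← hφP, hρ, hρ, hP'] at h3
    simp only [ipk] at h3
    have h5 : a' (ρ i) < a' (ρ j) := by
      rw [Fin.lt_def]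
      omega
    exact ha'.lt_iff_lt.1 h5
  have hlm : StrictMono lam := by
    intro i j hij
    have h3 : ipk a (Sum.inl i : Fin q ⊕ Fin d) < ipk a (Sum.inl j) := by
      rw [Fin.lt_def] at hij
      simp only [ipk]
      omega
    rw [← hP, ← hφP, ← hφP, hlam, hlam, hP'] at h3
    simp only [ipk] at h3
    rw [Fin.lt_def]
    omega
  have hid : ∀ z, φ z = z := by
    intro z
    rcases z with u | i
    · rw [hlam, strictMono_eq_id hlm]
    · rw [hρ, strictMono_eq_id hρm]
  have hPP : ∀ z, P' z = P z := fun z => by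
    have := hφP z
    rwa [hid] at this
  have hVV : ∀ z, V' z = V z := fun z => by
    have := hφV z
    rwa [hid] at this
  constructor
  · refine rk_unique v w ?_
    intro s t
    have e1 := hV (Sum.inl s) (Sum.inl t)
    have e2 := hV' (Sum.inl s) (Sum.inl t)
    rw [hVV, hVV, e1] at e2
    simp only [ivk] at e2
    rw [Fin.lt_def, Fin.lt_def]
    have e3 : ∀ m n : ℕ, (d + 1) * m + d < (d + 1) * n + d ↔ m < n := by
      intro m n
      rw [Nat.add_lt_add_iff_right, Nat.mul_lt_mul_left (Nat.succ_pos d)]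
    rw [e3, e3] at e2
    exact e2
  · funext i
    have key : ∀ u : Fin q, (a i : ℕ) ≤ u ↔ (a' i : ℕ) ≤ u := by
      intro u
      have e1 := hP (Sum.inr i) (Sum.inl u)
      have e2 := hP' (Sum.inr i) (Sum.inl u)
      rw [hPP, hPP, e1] at e2
      simp only [ipk] at e2
      omega
    apply Fin.ext
    have b1 := (a i).2
    have b2 := (a' i).2
    rcases lt_trichotomy (a i : ℕ) (a' i : ℕ) with h | h | h
    · have := (key ⟨(a i : ℕ), by omega⟩).1 (le_refl _)
      simp only at this
      omega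
    · exact h
    · have := (key ⟨(a' i : ℕ), by omega⟩).2 (le_refl _)
      simp only at this
      omega

/-- the new permutation avoids the pattern -/
theorem INS_avoid (h1 : IN1_stmt) (h2 : IN2_stmt) {b q d : ℕ} (y : Perm (Fin (b + 1)))
    (v : Perm (Fin q)) (a : Fin d → Fin (q + 1)) (ha : StrictMono a)
    (hv : ¬ Contains v (dsum (1 : Perm (Fin 1)) y)) :
    ¬ Contains (std (INS_card q d) (ipk a) (ivk y v a) (h1 y v a ha).1 (h1 y v a ha).2)
      (dsum (1 : Perm (Fin 1)) y) := by
  rintro ⟨f, hf1, hf2⟩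
  have hP := rk_lt (INS_card q d) (ipk a) (h1 y v a ha).1
  have hV := rk_lt (INS_card q d) (ivk y v a) (h1 y v a ha).2
  have hs := std_apply (INS_card q d) (ipk a) (ivk y v a) (h1 y v a ha).1 (h1 y v a ha).2
  generalize rk (INS_card q d) (ipk a) (h1 y v a ha).1 = P at hP hs
  generalize rk (INS_card q d) (ivk y v a) (h1 y v a ha).2 = V at hV hs
  generalize std (INS_card q d) (ipk a) (ivk y v a) (h1 y v a ha).1 (h1 y v a ha).2 = W at hs hf2
  have H : IsCopy (⇑W) (dsum (1 : Perm (Fin 1)) y) f := ⟨hf1, hf2⟩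
  obtain ⟨_, hy, hxy⟩ := isCopy_dsum H
  have hW : ∀ z, W z = V (P.symm z) := by
    intro z
    rw [← hs, Equiv.apply_symm_apply]
  refine h2 y v a ha hv (P.symm (f (Fin.castAdd (b + 1) 0)))
    (fun t => P.symm (f (Fin.natAdd 1 t))) ?_ ?_ ?_
  · intro s t hst
    rw [← hP, Equiv.apply_symm_apply, Equiv.apply_symm_apply]
    exact hy.1 hst
  · intro s t
    rw [← hV, ← hW, ← hW]
    exact hy.2 s t
  · intro t
    rw [← hP, ← hV, Equiv.apply_symm_apply, Equiv.apply_symm_apply, ← hW, ← hW]
    exact hxy 0 t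

/-- the map -/
noncomputable def INS_map (h1 : IN1_stmt) {b q d : ℕ} (y : Perm (Fin (b + 1)))
    (v : Perm (Fin q)) (A : Finset (Fin (q + 1))) (hA : A.card = d) :
    Perm (Fin (q + d)) × Finset (Fin (q + d)) :=
  (std (INS_card q d) (ipk fun i => A.orderEmbOfFin hA i) (ivk y v fun i => A.orderEmbOfFin hA i)
      (h1 y v _ (A.orderEmbOfFin hA).strictMono).1 (h1 y v _ (A.orderEmbOfFin hA).strictMono).2,
    Finset.univ.image fun i : Fin d =>
      rk (INS_card q d) (ivk y v fun i => A.orderEmbOfFin hA i)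
        (h1 y v _ (A.orderEmbOfFin hA).strictMono).2 (Sum.inr i))

theorem INS (_hHG : HG_stmt) (h1 : IN1_stmt) (h2 : IN2_stmt) (h3 : IN3_stmt) (hB : BDI_stmt) :
    INS_stmt := by
  intro b y q d k
  classical
  have hBD := hB (q + d) (2 * (k + 1))
  refine le_trans ?_ (Nat.mul_le_mul_left _ hBD)
  have hc : ((avs y q).filter fun v => (corn y v).card ≤ k).card * (q + 1).choose d =
      (((avs y q).filter fun v => (corn y v).card ≤ k) ×ˢ
        (Finset.powersetCard d (Finset.univ : Finset (Fin (q + 1))))).card := by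
    rw [card_product, card_powersetCard, card_univ, Fintype.card_fin]
  rw [hc, ← card_product]
  refine Finset.card_le_card_of_injOn (fun p => if h : p.2.card = d then INS_map h1 y p.1 p.2 h
    else (1, ∅)) ?_ ?_
  · intro p hp
    rw [mem_coe, mem_product, mem_filter, mem_powersetCard] at hp
    obtain ⟨⟨hp1, hp2⟩, _, hp3⟩ := hp
    simp only [dif_pos hp3, mem_coe, mem_product, INS_map]
    constructor
    · unfold avs at hp1 ⊢
      rw [mem_filter] at hp1 ⊢
      exact ⟨mem_univ _, INS_avoid h1 h2 y p.1 _ (p.2.orderEmbOfFin hp3).strictMono hp1.2⟩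
    · rw [mem_filter]
      refine ⟨mem_univ _, ?_⟩
      have h4 := h3 y p.1 _ (p.2.orderEmbOfFin hp3).strictMono
        (rk (INS_card q d) (ivk y p.1 fun i => p.2.orderEmbOfFin hp3 i)
        (h1 y p.1 _ (p.2.orderEmbOfFin hp3).strictMono).2)
        (rk_lt _ _ _)
      refine h4.trans ?_
      omega
  · intro p hp p' hp' heq
    rw [mem_coe, mem_product, mem_filter, mem_powersetCard] at hp hp'
    obtain ⟨⟨_, _⟩, _, hp3⟩ := hp
    obtain ⟨⟨_, _⟩, _, hp3'⟩ := hp'
    simp only [dif_pos hp3, dif_pos hp3', INS_map, Prod.mk.injEq] at heq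
    obtain ⟨hv, ha⟩ := INS_core h1 y p.1 p'.1 _ _ (p.2.orderEmbOfFin hp3).strictMono
      (p'.2.orderEmbOfFin hp3').strictMono heq.1 heq.2
    have hA : p.2 = p'.2 := by
      ext z
      rw [← mem_coe, ← mem_coe, ← Finset.range_orderEmbOfFin p.2 hp3,
        ← Finset.range_orderEmbOfFin p'.2 hp3', Set.mem_range, Set.mem_range]
      constructor
      · rintro ⟨i, hi⟩
        exact ⟨i, by rw [← hi]; exact (congrFun ha i).symm⟩
      · rintro ⟨i, hi⟩
        exact ⟨i, by rw [← hi]; exact congrFun ha i⟩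
    exact Prod.ext hv hA

end Pool.Agent.helper48.CG
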